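import Pool.Agent.Work.MP_db9399_ot.Out
import Pool.Agent.Work.MP_db9399_co.Defs

/-!
# MP_db9399, the FRAME of exception (iii) (owner helper38): spots last

From THEOREM OUT (graph outside the spots) and LTZ (inner edges of one spot) to total colourings of
graphs with almost complete spots. Definitions and the exact statement `Stmt_X` of every block.
See `BLUEPRINT.md`.
-/

set_option autoImplicit false

namespace Pool.Agent.Work.MP_db9399_sl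

open Finset Classical
open Pool.Agent.Work.MP_db9399_all (nb)
open Pool.Agent.Work.MP_db9399_dn (IsMat Tot)
open Pool.Agent.Work.MP_db9399_bg (HPre)
open _root_.MP_db9399_co

universe u

section defs
variable {V : Type u}

/-- `v` is a spot vertex -/
def InS (Ys : Finset (Finset V)) (v : V) : Prop := ∃ Y ∈ Ys, v ∈ Y

/-- `v` and `w` lie in the same spot -/
def Same (Ys : Finset (Finset V)) (v w : V) : Prop := ∃ Y ∈ Ys, v ∈ Y ∧ w ∈ Y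

/-- the graph outside the spots: all edges with an end outside the spots -/
def Gout (G : SimpleGraph V) (Ys : Finset (Finset V)) : SimpleGraph V where
  Adj v w := G.Adj v w ∧ ¬ (InS Ys v ∧ InS Ys w)
  symm := ⟨fun _ _ h => ⟨h.1.symm, fun h' => h.2 ⟨h'.2, h'.1⟩⟩⟩
  loopless := ⟨fun v h => G.loopless.irrefl v h.1⟩

/-- the edges between different spots, without the edges of `EH` -/
def Gss (G EH : SimpleGraph V) (Ys : Finset (Finset V)) : SimpleGraph V where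
  Adj v w := G.Adj v w ∧ InS Ys v ∧ InS Ys w ∧ ¬ Same Ys v w ∧ ¬ EH.Adj v w
  symm := ⟨fun _ _ h => ⟨h.1.symm, h.2.2.1, h.2.1,
    fun ⟨Y, hY, h1, h2⟩ => h.2.2.2.1 ⟨Y, hY, h2, h1⟩, fun h' => h.2.2.2.2 h'.symm⟩⟩
  loopless := ⟨fun v h => G.loopless.irrefl v h.1⟩

/-- the edges inside the spots, without the edges of `EH` -/
def Gin (G EH : SimpleGraph V) (Ys : Finset (Finset V)) : SimpleGraph V where
  Adj v w := G.Adj v w ∧ Same Ys v w ∧ ¬ EH.Adj v w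
  symm := ⟨fun _ _ h => ⟨h.1.symm, let ⟨Y, hY, h1, h2⟩ := h.2.1; ⟨Y, hY, h2, h1⟩,
    fun h' => h.2.2 h'.symm⟩⟩
  loopless := ⟨fun v h => G.loopless.irrefl v h.1⟩

/-- all edges which are not inside a spot -/
def Gex (G : SimpleGraph V) (Ys : Finset (Finset V)) : SimpleGraph V where
  Adj v w := G.Adj v w ∧ ¬ Same Ys v w
  symm := ⟨fun _ _ h => ⟨h.1.symm, fun ⟨Y, hY, h1, h2⟩ => h.2 ⟨Y, hY, h2, h1⟩⟩⟩
  loopless := ⟨fun v h => G.loopless.irrefl v h.1⟩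

variable [Fintype V]

/-- `G` has no almost bipartite parts -/
def Bip (g : ℝ) (G : SimpleGraph V) (d : ℕ) : Prop :=
  ∀ S T : Finset V, Disjoint S T → (∀ t ∈ T, (1 - g) * d ≤ ((nb G t).card : ℝ)) →
    (S.card : ℝ) ≤ (1 + g) * T.card → g * d * T.card ≤ ∑ t ∈ T, ((nb G t \ S).card : ℝ)

/-- `G` has no near-components -/
def Nsc (g : ℝ) (G : SimpleGraph V) (d : ℕ) : Prop :=
  ∀ C : Finset V, (∀ v ∈ C, (1 - g) * d ≤ ((nb G v).card : ℝ)) → (C.card : ℝ) ≤ (1 + g) * d →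
    g * d * C.card ≤ ∑ v ∈ C, ((nb G v \ C).card : ℝ)

/-- `Ys` = almost complete spots. `θ`: nonneighbours and boundary of every spot vertex, `η`: total
boundary of a spot, `ζ`: every outside vertex misses `ζ d` vertices of the spot. -/
structure Spt (θ ζ η g : ℝ) (G : SimpleGraph V) (d : ℕ) (Ys : Finset (Finset V)) : Prop where
  dis : ∀ Y ∈ Ys, ∀ Y' ∈ Ys, Y ≠ Y' → Disjoint Y Y'
  low : ∀ Y ∈ Ys, (1 - θ) * d ≤ (Y.card : ℝ)
  upp : ∀ Y ∈ Ys, (Y.card : ℝ) ≤ (1 + θ) * d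
  deg : ∀ Y ∈ Ys, ∀ v ∈ Y, (1 - θ) * d ≤ ((nb G v ∩ Y).card : ℝ)
  inn : ∀ Y ∈ Ys, ∀ v ∈ Y, ((Y \ nb G v).card : ℝ) ≤ θ * d
  sum : ∀ Y ∈ Ys, ∑ v ∈ Y, ((d : ℝ) - (nb G v ∩ Y).card) ≤ η * d * Y.card
  hub : ∀ Y ∈ Ys, ∀ v, v ∉ Y → ζ * d ≤ ((Y \ nb G v).card : ℝ)
  bip : Bip g (Gout G Ys) d
  nsc : Nsc g (Gout G Ys) d

/-- the colours after THEOREM OUT (and later, `Gx` = graph of all outer edges coloured so far, `Gr`
= outer edges which are not coloured yet). `E v` = colours used at the spot vertex `v` (outer edges,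
edge of `EH`, fake edges up to degree `d`), `Z` = exceptional spot vertices (contains the vertices
of `UH`). `E v` avoids the palette of the third of `v`, and every colour is used at few vertices
of every spot. -/
structure Out {k : ℕ} (δ π : ℝ) (G Gx Gr EH : SimpleGraph V) (d : ℕ) (Ys : Finset (Finset V))
    (UH : Finset V) (c0 tu : V → Fin k) (c : V → Fin k) (t : V → V → Fin k)
    (E : V → Finset (Fin k)) (K0 : Finset (Fin k)) (C : Fin 3 → Finset (Fin k)) (p : V → Fin 3)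
    (a : V → Bool) (Z : Finset V) : Prop where
  K0c : K0.card = d + 2
  cU : ∀ v ∈ UH, c v = c0 v
  cK : ∀ v, v ∉ UH → c v ∈ K0
  cc : ∀ v w, G.Adj v w → (InS Ys v → v ∈ UH) → (InS Ys w → w ∈ UH) → c v ≠ c w
  ts : ∀ v w, t v w = t w v
  te : ∀ v w, EH.Adj v w → t v w = tu v
  tK : ∀ v w, Gx.Adj v w → ¬ EH.Adj v w → t v w ∈ K0
  tc : ∀ v w, Gx.Adj v w → (InS Ys v → v ∈ UH) → t v w ≠ c v
  ti : ∀ v, Set.InjOn (t v) {w | Gx.Adj v w ∨ EH.Adj v w}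
  Et : ∀ v w, InS Ys v → Gx.Adj v w ∨ EH.Adj v w → t v w ∈ E v
  EK : ∀ v, InS Ys v → v ∉ UH → E v ⊆ K0
  EU : ∀ v ∈ UH, InS Ys v → E v ⊆ insert (tu v) K0 ∧ c0 v ∉ E v
  Ed : ∀ v, InS Ys v → (E v).card + (nb (Gin G EH Ys) v).card + (nb Gr v).card = d
  CK : ∀ j, C j ⊆ K0
  Cc : ∀ j, π * d ≤ ((C j).card : ℝ)
  Cd : ∀ i j, i ≠ j → Disjoint (C i) (C j)
  UZ : ∀ v ∈ UH, InS Ys v → v ∈ Z
  ZY : ∀ Y ∈ Ys, ((Y ∩ Z).card : ℝ) ≤ δ * d
  av : ∀ v, InS Ys v → v ∉ Z → Disjoint (E v) (C (p v))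
  cell : ∀ Y ∈ Ys, ∀ i l,
    |((Y.filter (fun v => p v = i ∧ a v = l)).card : ℝ) - (Y.card : ℝ) / 6| ≤ δ * d
  ld : ∀ Y ∈ Ys, ∀ b, ((Y.filter (fun v => v ∉ Z ∧ b ∈ E v)).card : ℝ) ≤ δ * d

/-- the colours of `K` which are missing at an odd number of vertices of `Y` -/
noncomputable def odd {K : Type} (Y : Finset V) (F : V → Finset K) (K0 : Finset K) : Finset K :=
  K0.filter (fun b => Odd (Y.filter (fun v => b ∉ F v)).card)

end defs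

/-! ## F1. The spots -/

/-- STR (owner helper59): the spots. -/
def Stmt_STR : Prop :=
  ∀ θ : ℝ, 0 < θ → θ ≤ 1 / 10 → ∃ ζ : ℝ, 0 < ζ ∧ ζ ≤ θ ∧ ∀ η g0 : ℝ, 0 < η → 0 < g0 →
    ∃ (g : ℝ) (d0 : ℕ), 0 < g ∧ g ≤ g0 ∧ g ≤ 1 / 10 ∧
    ∀ {V : Type u} [Fintype V] (G : SimpleGraph V) (d : ℕ), d0 ≤ d → (∀ v, (nb G v).card ≤ d) →
      Bip g0 G d → ∃ Ys : Finset (Finset V), Spt θ ζ η g G d Ys

/-! ## F2. The outer edges -/

/-- OUTP (owner helper6; from OUT): pendant edges at the spot vertices of degree less than `d`, a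
dummy partner at every vertex of `UH` whose edge of `EH` has both ends in spots. -/
def Stmt_OUTP : Prop :=
  ∀ (δ π : ℝ), 0 < δ → 0 < π → π < 1 / 3 → ∃ θ : ℝ, 0 < θ ∧ θ ≤ 1 / 100 ∧ ∀ g : ℝ, 0 < g →
    g ≤ 1 / 10 → ∃ d0 : ℕ, ∀ {V : Type u} [Fintype V] (G : SimpleGraph V) (d k : ℕ)
      (Ys : Finset (Finset V)) (UH : Finset V) (c0 : V → Fin k) (EH : SimpleGraph V)
      (tu : V → Fin k), d0 ≤ d → d ≤ Fintype.card V → d + 2 ≤ k → (∀ v, (nb G v).card ≤ d) →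
      (∀ Y ∈ Ys, Y.card ≤ 2 * d) → (∀ Y ∈ Ys, ∀ Y' ∈ Ys, Y ≠ Y' → Disjoint Y Y') →
      (∀ Y ∈ Ys, ∀ v ∈ Y, (1 - θ) * d ≤ ((nb G v ∩ Y).card : ℝ)) →
      Bip g (Gout G Ys) d → Nsc g (Gout G Ys) d → HPre G UH c0 EH tu →
      (∀ Y ∈ Ys, (Y ∩ UH).card ≤ 2) →
      ∃ (c : V → Fin k) (t : V → V → Fin k) (E : V → Finset (Fin k)) (K0 : Finset (Fin k))
        (C : Fin 3 → Finset (Fin k)) (p : V → Fin 3) (a : V → Bool) (Z : Finset V),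
        Out δ π G (Gout G Ys) (Gss G EH Ys) EH d Ys UH c0 tu c t E K0 C p a Z

/-- SSE (owner helper6): the edges between different spots, greedily. `Pc v` = protected colours. -/
def Stmt_SSE : Prop :=
  ∀ (δ π : ℝ), 0 < δ → 1 / 4 ≤ π → π < 1 / 3 → δ ≤ 1 / 1000 → ∃ (θ : ℝ) (d0 : ℕ), 0 < θ ∧
    ∀ {V : Type u} [Fintype V] (G : SimpleGraph V) (d k : ℕ) (Ys : Finset (Finset V))
      (UH : Finset V) (c0 : V → Fin k) (EH : SimpleGraph V) (tu : V → Fin k)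
      (c : V → Fin k) (t : V → V → Fin k) (E : V → Finset (Fin k)) (K0 : Finset (Fin k))
      (C : Fin 3 → Finset (Fin k)) (p : V → Fin 3) (a : V → Bool) (Z : Finset V)
      (Pc : V → Finset (Fin k)), d0 ≤ d → (∀ v, (nb G v).card ≤ d) →
      (∀ Y ∈ Ys, Y.card ≤ 2 * d) → (∀ Y ∈ Ys, ∀ Y' ∈ Ys, Y ≠ Y' → Disjoint Y Y') →
      (∀ Y ∈ Ys, ∀ v ∈ Y, (1 - θ) * d ≤ ((nb G v ∩ Y).card : ℝ)) →
      HPre G UH c0 EH tu → (∀ v, (Pc v).card ≤ 2) → (∀ v, InS Ys v → Disjoint (E v) (Pc v)) →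
      Out δ π G (Gout G Ys) (Gss G EH Ys) EH d Ys UH c0 tu c t E K0 C p a Z →
      ∃ (t' : V → V → Fin k) (E' : V → Finset (Fin k)),
        (∀ v w, (Gout G Ys).Adj v w → t' v w = t v w) ∧ (∀ v, E v ⊆ E' v) ∧
        (∀ v, InS Ys v → Disjoint (E' v) (Pc v)) ∧
        Out (2 * δ) π G (Gex G Ys) ⊥ EH d Ys UH c0 tu c t' E' K0 C p a Z

/-! ## F3. The vertex colours of one spot `Y` -/

/-- Data at one spot `Y` of size at least `d`. `G` = inner graph without the edges of `H`, `W` = the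
vertices of `H` in `Y`, `F0 u`, `u ∈ W`: all colours used at `u` (with its own colour), `cw` = own
colours of the vertices of `W`, `A v` = colours of the outer neighbours of `v`. -/
structure VSH {V : Type u} [Fintype V] {k : ℕ} (G : SimpleGraph V) (d x : ℕ) (Y : Finset V)
    (K0 : Finset (Fin k)) (E A F0 : V → Finset (Fin k)) (W : Finset V) (cw : Finset (Fin k))
    (p : V → Fin 3) (C : Fin 3 → Finset (Fin k)) (Z : Finset V) : Prop where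
  K0c : K0.card = d + 2
  x1 : 1 ≤ x
  xd : 10 ^ 15 * x ≤ d
  big : d ≤ Y.card
  upp : Y.card ≤ d + x
  nbY : ∀ v ∈ Y, nb G v ⊆ Y
  inn : ∀ v ∈ Y, (Y \ nb G v).card ≤ x
  EK : ∀ v ∈ Y, v ∉ W → E v ⊆ K0
  deg : ∀ v ∈ Y, v ∉ W → (nb G v).card + (E v).card = d
  Ex : ∀ v ∈ Y, v ∉ W → (E v).card ≤ x
  AE : ∀ v ∈ Y, v ∉ W → (A v).card ≤ (E v).card
  WY : W ⊆ Y
  W2 : W.card ≤ 2
  FK : ∀ u ∈ W, F0 u ⊆ K0
  Fd : ∀ u ∈ W, (nb G u).card + (F0 u).card = d + 1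
  cwF : ∀ b ∈ cw, ∃ u ∈ W, b ∈ F0 u
  cwc : cw.card ≤ W.card
  ld : ∀ b, (Y.filter (fun v => v ∉ Z ∧ b ∈ E v)).card ≤ x
  ZY : (Y ∩ Z).card ≤ x
  WZ : W ⊆ Z
  Cd : ∀ i j, i ≠ j → Disjoint (C i) (C j)
  CK : ∀ j, C j ⊆ K0
  Cc : ∀ j, (C j).card ≤ (Y.filter (fun v => p v = j)).card
  pc : ∀ j, |((Y.filter (fun v => p v = j)).card : ℝ) - (Y.card : ℝ) / 3| ≤ x
  av : ∀ v ∈ Y, v ∉ Z → Disjoint (E v) (C (p v))

/-- VSP (owner helper94): vertex colours of one spot with at least `d` vertices. -/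
def Stmt_VSP : Prop :=
  ∀ {V : Type u} [Fintype V] {k : ℕ} (G : SimpleGraph V) (d x : ℕ) (Y : Finset V)
    (K0 : Finset (Fin k)) (E A F0 : V → Finset (Fin k)) (W : Finset V) (cw : Finset (Fin k))
    (p : V → Fin 3) (C : Fin 3 → Finset (Fin k)) (Z : Finset V),
    VSH G d x Y K0 E A F0 W cw p C Z →
    ∃ (c : V → Fin k) (Z' : Finset V),
      (∀ v ∈ Y, v ∉ W → c v ∈ K0 ∧ c v ∉ E v ∧ c v ∉ A v ∧ c v ∉ cw) ∧
      (∀ v ∈ Y, ∀ w ∈ Y, v ∉ W → w ∉ W → G.Adj v w → c v ≠ c w) ∧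
      (∀ b, (Y.filter (fun v => v ∉ W ∧ c v = b)).card ≤ 2) ∧
      Z ⊆ Z' ∧ (Y ∩ Z').card ≤ 20 * x ∧ (∀ v ∈ Y, v ∉ Z' → c v ∉ C (p v)) ∧
      (odd Y (fun v => if v ∈ W then F0 v else insert (c v) (E v)) K0).card ≤ Y.card

/-! ## F4. Assembly -/

/-- LTS (from LTZ): the inner edges of one spot, in the ambient graph, colours in `K0`. -/
def Stmt_LTS : Prop :=
  ∀ {V : Type u} [Fintype V] {k : ℕ} (G : SimpleGraph V) (d x h s : ℕ) (Y : Finset V)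
    (K0 : Finset (Fin k)) (F : V → Finset (Fin k)) (p : V → Fin 3) (a : V → Bool)
    (C : Fin 3 → Finset (Fin k)) (Z : Finset V), K0.card = d + 2 → 1 ≤ x →
    10 ^ 27 * x ≤ d → 10 ^ 12 * h ≤ d → d ≤ 10 ^ 13 * h → 200 * x ≤ h → (Y ∩ Z).card ≤ x →
    (∀ v ∈ Y, nb G v ⊆ Y) → (∀ v ∈ Y, (nb G v).card + (F v).card = d + 1) →
    (∀ v ∈ Y, (Y \ nb G v).card ≤ x) → (∀ v ∈ Y, (F v).card ≤ x) → (∀ v ∈ Y, F v ⊆ K0) →
    (∀ b, (Y.filter (fun v => v ∉ Z ∧ b ∈ F v)).card ≤ x) → (odd Y F K0).card ≤ Y.card →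
    (∀ i l, (Y.filter (fun v => p v = i ∧ a v = l)).card ≤ s ∧
      s ≤ (Y.filter (fun v => p v = i ∧ a v = l)).card + x) → (∀ j, C j ⊆ K0) →
    (∀ i j, i ≠ j → Disjoint (C i) (C j)) → (∀ i, (C i).card + h = 2 * s) →
    (∀ v ∈ Y, v ∉ Z → Disjoint (F v) (C (p v))) →
    ∃ t : V → V → Fin k, (∀ v w, t v w = t w v) ∧
      (∀ v ∈ Y, ∀ w ∈ Y, G.Adj v w → t v w ∈ K0 ∧ t v w ∉ F v) ∧
      ∀ v ∈ Y, Set.InjOn (t v) (nb G v : Set V)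

/-- the vertex colours of all spots are chosen -/
structure Vert {V : Type u} [Fintype V] {k : ℕ} (δ : ℝ) (G EH : SimpleGraph V) (d : ℕ)
    (Ys : Finset (Finset V)) (UH : Finset V) (c0 tu : V → Fin k) (c : V → Fin k)
    (E : V → Finset (Fin k)) (K0 : Finset (Fin k)) (C : Fin 3 → Finset (Fin k)) (p : V → Fin 3)
    (Z : Finset V) (F : V → Finset (Fin k)) : Prop where
  cU : ∀ v ∈ UH, c v = c0 v
  cc : ∀ v w, G.Adj v w → c v ≠ c w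
  cE : ∀ v, InS Ys v → c v ∉ E v
  EF : ∀ v, InS Ys v → E v ∩ K0 ⊆ F v
  cF : ∀ v, InS Ys v → c v ∈ K0 → c v ∈ F v
  FK : ∀ v, InS Ys v → F v ⊆ K0
  Fd : ∀ v, InS Ys v → (F v).card + (nb (Gin G EH Ys) v).card = d + 1
  av : ∀ v, InS Ys v → v ∉ Z → Disjoint (F v) (C (p v))
  ZY : ∀ Y ∈ Ys, ((Y ∩ Z).card : ℝ) ≤ δ * d
  ld : ∀ Y ∈ Ys, ∀ b, ((Y.filter (fun v => v ∉ Z ∧ b ∈ F v)).card : ℝ) ≤ δ * d
  par : ∀ Y ∈ Ys, (odd Y F K0).card ≤ Y.card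

/-- VSEQ (from VSP): the vertex colours of all spots, one spot after the other; all spots have at
least `d` vertices. -/
def Stmt_VSEQ : Prop :=
  ∀ (δ π : ℝ), 0 < δ → 1 / 4 ≤ π → π < 1 / 3 → ∃ (δ1 θ : ℝ) (d0 : ℕ), 0 < δ1 ∧ 0 < θ ∧
    ∀ {V : Type u} [Fintype V] (G : SimpleGraph V) (d k : ℕ) (Ys : Finset (Finset V))
      (UH : Finset V) (c0 : V → Fin k) (EH : SimpleGraph V) (tu : V → Fin k)
      (c : V → Fin k) (t : V → V → Fin k) (E : V → Finset (Fin k)) (K0 : Finset (Fin k))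
      (C : Fin 3 → Finset (Fin k)) (p : V → Fin 3) (a : V → Bool) (Z : Finset V), d0 ≤ d →
      (∀ v, (nb G v).card ≤ d) → (∀ Y ∈ Ys, ∀ Y' ∈ Ys, Y ≠ Y' → Disjoint Y Y') →
      (∀ Y ∈ Ys, d ≤ Y.card ∧ (Y.card : ℝ) ≤ (1 + θ) * d) →
      (∀ Y ∈ Ys, ∀ v ∈ Y, (1 - θ) * d ≤ ((nb G v ∩ Y).card : ℝ)) →
      (∀ Y ∈ Ys, ∀ v ∈ Y, ((Y \ nb G v).card : ℝ) ≤ θ * d) → HPre G UH c0 EH tu →
      (∀ j, ((C j).card : ℝ) ≤ π * d + 1) →
      Out δ1 π G (Gex G Ys) ⊥ EH d Ys UH c0 tu c t E K0 C p a Z →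
      ∃ (c' : V → Fin k) (Z' : Finset V) (F : V → Finset (Fin k)),
        (∀ v, ¬ InS Ys v → c' v = c v) ∧ Z ⊆ Z' ∧
        Vert δ G EH d Ys UH c0 tu c' E K0 C p Z' F

/-- FIN (from LTS): the total colouring. -/
def Stmt_FIN : Prop :=
  ∃ (δ π θ : ℝ) (d0 : ℕ), 0 < δ ∧ 1 / 4 ≤ π ∧ π < 1 / 3 ∧ 0 < θ ∧
    ∀ {V : Type u} [Fintype V] (G : SimpleGraph V) (d k : ℕ) (Ys : Finset (Finset V))
      (UH : Finset V) (c0 : V → Fin k) (EH : SimpleGraph V) (tu : V → Fin k)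
      (c c' : V → Fin k) (t : V → V → Fin k) (E F : V → Finset (Fin k)) (K0 : Finset (Fin k))
      (C : Fin 3 → Finset (Fin k)) (p : V → Fin 3) (a : V → Bool) (Z Z' : Finset V), d0 ≤ d →
      (∀ v, (nb G v).card ≤ d) → (∀ Y ∈ Ys, ∀ Y' ∈ Ys, Y ≠ Y' → Disjoint Y Y') →
      (∀ Y ∈ Ys, (1 - θ) * d ≤ (Y.card : ℝ) ∧ (Y.card : ℝ) ≤ (1 + θ) * d) →
      (∀ Y ∈ Ys, ∀ v ∈ Y, (1 - θ) * d ≤ ((nb G v ∩ Y).card : ℝ)) →
      (∀ Y ∈ Ys, ∀ v ∈ Y, ((Y \ nb G v).card : ℝ) ≤ θ * d) → HPre G UH c0 EH tu →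
      Out δ π G (Gex G Ys) ⊥ EH d Ys UH c0 tu c t E K0 C p a Z →
      (∀ v, ¬ InS Ys v → c' v = c v) → Z ⊆ Z' →
      Vert δ G EH d Ys UH c0 tu c' E K0 C p Z' F →
      ∃ t' : V → V → Fin k, Tot G c' t' ∧ (∀ v ∈ UH, c' v = c0 v) ∧
        ∀ v w, EH.Adj v w → t' v w = tu v

/-- MAIN0: graphs without almost bipartite parts in which every almost complete almost closed set
of fewer than `Δ` vertices has an outside vertex joined to almost all of it. -/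
def Stmt_MAIN0 : Prop :=
  ∃ z : ℝ, 0 < z ∧ ∀ g : ℝ, 0 < g → ∃ d0 : ℕ, ∀ (V : Type u) [Fintype V] (G : SimpleGraph V)
    [DecidableRel G.Adj] (k : ℕ), d0 ≤ G.maxDegree →
    (∀ S T : Finset V, Disjoint S T → (∀ t ∈ T, (1 - g) * G.maxDegree ≤ (G.degree t : ℝ)) →
      (S.card : ℝ) ≤ (1 + g) * T.card →
      g * G.maxDegree * T.card ≤ ((G.interedges T (univ \ S)).card : ℝ)) →
    (∀ C : Finset V, C.card < G.maxDegree →
      (∑ v ∈ C, ((G.maxDegree : ℝ) - (G.neighborFinset v ∩ C).card) ≤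
        g * G.maxDegree * C.card) → C.Nonempty →
      ∃ v, v ∉ C ∧ ((C \ G.neighborFinset v).card : ℝ) ≤ z * G.maxDegree) →
    G.maxDegree + 2 ≤ k →
    ∀ H : G.Subgraph, IsDistThreeMatching H → ∀ (c₀ : V → Fin k) (t₀ : Sym2 V → Fin k),
      IsTotalColoring H.spanningCoe c₀ t₀ →
      ∃ (c : V → Fin k) (t : Sym2 V → Fin k), IsTotalColoring G c t ∧
        (∀ v ∈ H.verts, c v = c₀ v) ∧ ∀ e ∈ H.edgeSet, t e = t₀ e

end Pool.Agent.Work.MP_db9399_sl
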